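import Pool.Agent.FS.RevInv.Step

/-!
In the group of formal maps of complex `n`-space, `n ≥ 2`, every map tangent to the identity is a
product of eight involutions.
-/

set_option autoImplicit false

namespace Pool.Agent.Variants.MP_9aaefc_al.EightInvolutions

open MvPowerSeries Pool.Agent.Lib.MP_9aaefc_al Pool.Agent.FS.RevInv

variable {n : ℕ}

/-- The Jacobian matrix at the origin: entry `(i, j)` is the coefficient of `x j` in `f i`. -/
noncomputable def jac (f : Fin n → MvPowerSeries (Fin n) ℂ) : Matrix (Fin n) (Fin n) ℂ :=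
  Matrix.of fun i j => coeff (Finsupp.single j 1) (f i)

/-- Formal maps: `n` power series in `n` variables with zero constant terms and invertible linear
part. -/
@[ext]
structure FormalMap (n : ℕ) where
  toFun : Fin n → MvPowerSeries (Fin n) ℂ
  const : ∀ i, constantCoeff (toFun i) = 0
  det_ne : (jac toFun).det ≠ 0

theorem FormalMap.hasSubst (f : FormalMap n) : HasSubst f.toFun :=
  hasSubst_of_constantCoeff_zero f.const

theorem jac_subst {f g : Fin n → MvPowerSeries (Fin n) ℂ} (hf : ∀ i, constantCoeff (f i) = 0)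
    (hg : ∀ i, constantCoeff (g i) = 0) : jac (fun i => subst g (f i)) = jac f * jac g := by
  ext i l
  exact coeff_single_subst hg (hf i) l

theorem jac_X : jac (fun i : Fin n => (X i : MvPowerSeries (Fin n) ℂ)) = 1 := by
  ext i j
  rw [Matrix.one_apply]
  exact coeff_single_X i j

theorem comp_const (f g : FormalMap n) (i : Fin n) :
    constantCoeff (subst g.toFun (f.toFun i) : MvPowerSeries (Fin n) ℂ) = 0 :=
  constantCoeff_subst_eq_zero g.hasSubst g.const (f.const i)

theorem comp_det (f g : FormalMap n) : (jac fun i => subst g.toFun (f.toFun i)).det ≠ 0 := by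
  rw [jac_subst f.const g.const, Matrix.det_mul]
  exact mul_ne_zero f.det_ne g.det_ne

theorem idMap_det : (jac fun i : Fin n => (X i : MvPowerSeries (Fin n) ℂ)).det ≠ 0 := by
  rw [jac_X, Matrix.det_one]
  exact one_ne_zero

/-- Formal composition `f ∘ g`: substitute `g` into each component of `f`. -/
noncomputable def comp (f g : FormalMap n) : FormalMap n :=
  ⟨fun i => subst g.toFun (f.toFun i), comp_const f g, comp_det f g⟩

/-- The identity map `(x 1, ..., x n)`. -/
noncomputable def idMap (n : ℕ) : FormalMap n :=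
  ⟨fun i => X i, fun i => constantCoeff_X i, idMap_det⟩

theorem det_ne_of_subst {f g : Fin n → MvPowerSeries (Fin n) ℂ}
    (hf : ∀ i, constantCoeff (f i) = 0) (hg : ∀ i, constantCoeff (g i) = 0)
    (h : ∀ i, subst g (f i) = (X i : MvPowerSeries (Fin n) ℂ)) :
    (jac f).det ≠ 0 ∧ (jac g).det ≠ 0 := by
  have h1 := jac_subst hf hg
  rw [funext h, jac_X] at h1
  have h2 := congrArg Matrix.det h1
  rw [Matrix.det_one, Matrix.det_mul] at h2
  exact mul_ne_zero_iff.1 (h2 ▸ one_ne_zero)

theorem exists_inv (f : FormalMap n) : ∃ g : FormalMap n, comp g f = idMap n := by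
  obtain ⟨G, hG, h1, h2⟩ := exists_inverse f.toFun f.const f.det_ne
  exact ⟨⟨G, hG, (det_ne_of_subst f.const hG h1).2⟩, FormalMap.ext (funext h2)⟩

theorem comp_assoc (f g h : FormalMap n) : comp (comp f g) h = comp f (comp g h) :=
  FormalMap.ext (funext fun i => subst_comp_subst_apply g.hasSubst h.hasSubst (f.toFun i))

theorem id_comp (f : FormalMap n) : comp (idMap n) f = f :=
  FormalMap.ext (funext fun i => subst_X f.hasSubst i)

theorem comp_id (f : FormalMap n) : comp f (idMap n) = f :=
  FormalMap.ext (funext fun i => congrFun subst_self (f.toFun i))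

/-- The group of formal maps under composition. -/
noncomputable instance group : Group (FormalMap n) where
  mul := comp
  one := idMap n
  inv f := (exists_inv f).choose
  mul_assoc := comp_assoc
  one_mul := id_comp
  mul_one := comp_id
  inv_mul_cancel f := (exists_inv f).choose_spec

theorem mul_toFun (f g : FormalMap n) (i : Fin n) :
    (f * g).toFun i = subst g.toFun (f.toFun i) := rfl

theorem one_toFun (i : Fin n) : (1 : FormalMap n).toFun i = X i := rfl

theorem mul_sig (f g : FormalMap n) (i : Fin n) :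
    (f * g).toFun i = sig g.toFun g.const (f.toFun i) := (sig_apply _ _ _).symm

theorem jac_congr {f g : Fin n → PS n} (h : ∀ i, f i - g i ∈ ordI n 2) : jac f = jac g := by
  ext i j
  have := mem_ordI_iff.1 (h i) (Finsupp.single j 1) (by simp)
  rwa [map_sub, sub_eq_zero] at this

theorem const_congr {f g : Fin n → PS n} (h : ∀ i, f i - g i ∈ ordI n 2)
    (hg : ∀ i, constantCoeff (g i) = 0) (i : Fin n) : constantCoeff (f i) = 0 := by
  have := mem_one_iff.1 (ordI_anti (by norm_num) (h i))
  rwa [map_sub, hg, sub_zero] at this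

theorem exists_con (k : ℕ) : ∃ c : Con (FormalMap n),
    ∀ a b, c a b ↔ ∀ i, a.toFun i - b.toFun i ∈ ordI n k := by
  refine ⟨⟨⟨fun a b => ∀ i, a.toFun i - b.toFun i ∈ ordI n k, fun a i => ?_,
    fun h i => ?_, fun h h' i => ?_⟩, fun {w x y z} h h' i => ?_⟩, fun _ _ => Iff.rfl⟩
  · rw [sub_self]
    exact Ideal.zero_mem _
  · rw [← neg_sub]
    exact neg_mem (h i)
  · simpa using Ideal.add_mem _ (h i) (h' i)
  · have h1 := sig_mem y.toFun y.const (h i)
    have h2 := sig_congr y.const z.const h' (x.toFun i)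
    rw [map_sub] at h1
    rw [mul_sig, mul_sig]
    simpa using Ideal.add_mem _ h1 h2

theorem delta_mul {k : ℕ} {x y : FormalMap n} {u v : Fin n → PS n}
    (hu : u ∈ ordV n (k + 2)) (hv : v ∈ ordV n (k + 2))
    (hx : ∀ i, x.toFun i - X i - u i ∈ ordI n (k + 3))
    (hy : ∀ i, y.toFun i - X i - v i ∈ ordI n (k + 3)) (i : Fin n) :
    (x * y).toFun i - X i - (u + v) i ∈ ordI n (k + 3) := by
  have h0 : ∀ i, sig y.toFun y.const (X i) - X i ∈ ordI n 2 := fun i => by
    rw [sig_X]
    simpa using Ideal.add_mem _ (ordI_anti (by omega : 2 ≤ k + 3) (hy i))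
      (ordI_anti (by omega : 2 ≤ k + 2) (mem_ordV.1 hv i))
  have h1 := unip_step _ (fun _ _ => sig_mem y.toFun y.const) h0 _ _ (mem_ordV.1 hu i)
  have h2 := sig_mem y.toFun y.const (hx i)
  rw [map_sub, map_sub, sig_X] at h2
  rw [mul_sig, Pi.add_apply]
  convert Ideal.add_mem _ (Ideal.add_mem _ h1 h2) (hy i) using 1
  ring

theorem exists_lin (A : Matrix (Fin n) (Fin n) ℂ) (hA : A * A = 1) :
    ∃ J : FormalMap n, J * J = 1 ∧ ∀ (h : FormalMap n) (v : Fin n → PS n),
      (∀ i, h.toFun i = X i + v i) → ∀ i, (J * h * J).toFun i = X i + rho A v i := by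
  have hj : jac (lin A) = A := by
    ext i j
    simp [jac, lin, coeff_single_X]
  have hdet : (jac (lin A)).det ≠ 0 := by
    have := congrArg Matrix.det hA
    rw [Matrix.det_mul, Matrix.det_one] at this
    rw [hj]
    exact left_ne_zero_of_mul (this ▸ one_ne_zero)
  have hl : ∀ i, ∑ j, A i j • lin A j = (X i : PS n) := by
    intro i
    simp only [lin, Finset.smul_sum, smul_smul]
    rw [Finset.sum_comm]
    simp only [← Finset.sum_smul, ← Matrix.mul_apply, hA, Matrix.one_apply]
    simp
  have key : ∀ (h : FormalMap n) (v : Fin n → PS n), (∀ i, h.toFun i = X i + v i) → ∀ i,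
      ((⟨lin A, lin_const A, hdet⟩ : FormalMap n) * h * ⟨lin A, lin_const A, hdet⟩).toFun i =
        X i + rho A v i := by
    intro h v hv i
    rw [mul_sig, mul_sig, rho_apply, ← hl]
    show sig (lin A) (lin_const A) (sig h.toFun h.const (∑ j, A i j • X j)) = _
    simp only [map_sum, map_smul, sig_X, hv, map_add, smul_add, Finset.sum_add_distrib]
  refine ⟨⟨lin A, lin_const A, hdet⟩, FormalMap.ext (funext fun i => ?_), key⟩
  have := key 1 0 (fun i => (add_zero _).symm) i
  rwa [mul_one, map_zero, Pi.zero_apply, add_zero] at this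

theorem delta_cm {k : ℕ} {A : Matrix (Fin n) (Fin n) ℂ} {J : FormalMap n}
    (hJ : ∀ (h : FormalMap n) (v : Fin n → PS n),
      (∀ i, h.toFun i = X i + v i) → ∀ i, (J * h * J).toFun i = X i + rho A v i)
    {v : Fin n → PS n} (hv : v ∈ ordV n (k + 2)) : ∃ h : FormalMap n,
      (∀ i, h.toFun i - X i ∈ ordI n (k + 2)) ∧
        ∀ i, (cm h J).toFun i - X i - (v - rho A v) i ∈ ordI n (k + 3) := by
  have h2 : ∀ i, X i + v i - X i ∈ ordI n 2 := fun i => by
    rw [add_sub_cancel_left]
    exact ordI_anti (by omega) (mem_ordV.1 hv i)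
  let h : FormalMap n := ⟨fun i => X i + v i, const_congr h2 fun i => constantCoeff_X i,
    by rw [jac_congr h2]; exact idMap_det⟩
  have hh : ∀ i, h.toFun i - X i - v i ∈ ordI n (k + 3) := fun i => by
    simp [h]
  have hh' : ∀ i, h.toFun i - X i ∈ ordI n (k + 2) := fun i => by
    simpa [h] using mem_ordV.1 hv i
  obtain ⟨c, hc⟩ := exists_con (n := n) (k + 2)
  let w : Fin n → PS n := fun i => (h⁻¹).toFun i - X i
  have hw : w ∈ ordV n (k + 2) := mem_ordV.2 ((hc _ _).1 (FS.RevInv.inv_mem c ((hc h 1).2 hh')))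
  have h3 : v + w ∈ ordV n (k + 3) := mem_ordV.2 fun i => by
    have := delta_mul (y := h⁻¹) hv hw hh (fun i => by simp [w]) i
    rw [mul_inv_cancel, one_toFun, sub_self, zero_sub] at this
    exact neg_mem_iff.1 this
  refine ⟨h, hh', fun i => ?_⟩
  have h4 := delta_mul (y := J * h⁻¹ * J) hv (rho_mem A hw) hh (fun i => by
    rw [hJ h⁻¹ w (fun i => by simp [w]) i]
    simp) i
  have h5 := mem_ordV.1 (rho_mem A h3) i
  have e : cm h J = h * (J * h⁻¹ * J) := by simp only [cm, mul_assoc]
  rw [e]
  convert Ideal.add_mem _ h4 h5 using 1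
  simp only [map_add, Pi.add_apply, Pi.sub_apply]
  ring

/-- For `n ≥ 2` every formal map tangent to the identity is a product of eight involutions. -/
theorem result (n : ℕ) (hn : 2 ≤ n) (f : FormalMap n) (hf : jac f.toFun = 1) :
    ∃ s : Fin 8 → FormalMap n, (∀ a, s a * s a = 1) ∧
      f = s 0 * s 1 * s 2 * s 3 * s 4 * s 5 * s 6 * s 7 := by
  obtain ⟨m, rfl⟩ : ∃ m, n = m + 2 := ⟨n - 2, by omega⟩
  obtain ⟨A, hA, hspan⟩ := exists_four m
  choose J hJ hJc using fun a => exists_lin (A a) (hA a)
  choose c hc using exists_con (n := m + 2)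
  obtain ⟨g, hg⟩ := approx c J hJ
    (fun k a b h => (hc _ _ _).2 fun i => ordI_anti (by omega) ((hc _ _ _).1 h i))
    (fun a b h => FormalMap.ext (funext fun i => eq_of_forall_sub_mem fun k =>
      ordI_anti (by omega) ((hc _ _ _).1 (h k) i)))
    (by
      intro a ha
      have chain : ∀ l t, l ≤ t → ∀ i, (a t).toFun i - (a l).toFun i ∈ ordI (m + 2) (l + 2) := by
        intro l t hlt i
        induction t, hlt using Nat.le_induction with
        | base =>
          rw [sub_self]
          exact Ideal.zero_mem _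
        | succ t hlt ih =>
          simpa using Ideal.add_mem _ (ordI_anti (by omega : l + 2 ≤ t + 2)
            ((hc _ _ _).1 (ha t) i)) ih
      let K : Fin (m + 2) → PS (m + 2) := fun i d => coeff d ((a d.degree).toFun i)
      have hK : ∀ k i, K i - (a k).toFun i ∈ ordI (m + 2) (k + 2) := by
        intro k i
        rw [mem_ordI_iff]
        intro d hd
        have e : coeff d (K i) = coeff d ((a d.degree).toFun i) := rfl
        rw [map_sub, e, sub_eq_zero]
        rcases le_total d.degree k with h | h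
        · have := mem_ordI_iff.1 (chain _ _ h i) d (by omega)
          rw [map_sub, sub_eq_zero] at this
          exact this.symm
        · have := mem_ordI_iff.1 (chain _ _ h i) d hd
          rwa [map_sub, sub_eq_zero] at this
      exact ⟨⟨K, const_congr (hK 0) (a 0).const, by rw [jac_congr (hK 0)]; exact (a 0).det_ne⟩,
        fun k => (hc _ _ _).2 (hK k)⟩)
    (by
      intro k a b ha hb
      rw [hc] at ha hb ⊢
      intro i
      have h1 := unip_step _ (fun _ _ => sig_mem a.toFun a.const)
        (fun i => by rw [sig_X]; exact ha i) _ _ (hb i)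
      have h2 := unip_step' (k + 1) _ (fun _ _ => sig_mem b.toFun b.const)
        (fun i => by rw [sig_X, show 1 + (k + 1) = k + 2 by ring]; exact hb i) _ _ (ha i)
      rw [show 2 + (k + 1) = k + 3 by ring] at h2
      rw [one_toFun, map_sub, sig_X] at h1 h2
      rw [mul_sig, mul_sig]
      convert Ideal.sub_mem _ h2 h1 using 1
      ring)
    (by
      intro k x hx
      let U : Fin 4 → Submodule ℂ (Fin (m + 2) → PS (m + 2)) := fun a =>
        (ordV (m + 2) (k + 2)).map (1 - rho (A a))
      have hU : ∀ a, ∀ v ∈ ordV (m + 2) (k + 2), v - rho (A a) v ∈ U a :=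
        fun a v hv => ⟨v, hv, rfl⟩
      have h1 := hspan k (ordV (m + 2) (k + 3) ⊔ ⨆ a, U a) le_sup_left
        (fun a v hv => Submodule.mem_sup_right (Submodule.mem_iSup_of_mem a (hU a v hv)))
        (show (fun i => x.toFun i - X i) ∈ _ from mem_ordV.2 ((hc _ _ _).1 hx))
      obtain ⟨r, hr, t, ht, e⟩ := Submodule.mem_sup.1 h1
      obtain ⟨u, hu, rfl⟩ := (Submodule.mem_iSup_iff_exists_finsupp _ _).1 ht
      choose v hv hvu using hu
      choose h hh hcm using fun a => delta_cm (hJc a) (hv a)
      have hm : ∀ a, v a - rho (A a) (v a) ∈ ordV (m + 2) (k + 2) := fun a =>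
        Submodule.sub_mem _ (hv a) (rho_mem _ (hv a))
      refine ⟨h, fun a => (hc _ _ _).2 (hh a), (hc _ _ _).2 fun i => ?_⟩
      have h2 := delta_mul (Submodule.add_mem _ (Submodule.add_mem _ (hm 0) (hm 1)) (hm 2)) (hm 3)
        (delta_mul (Submodule.add_mem _ (hm 0) (hm 1)) (hm 2)
          (delta_mul (hm 0) (hm 1) (hcm 0) (hcm 1)) (hcm 2)) (hcm 3) i
      have h3 : ∀ a, v a - rho (A a) (v a) = u a := hvu
      rw [Finsupp.sum_fintype _ _ (fun _ => rfl), Fin.sum_univ_four] at e
      simp only [h3] at h2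
      have h4 := congrFun e i
      simp only [Pi.add_apply] at h2 h4
      convert Ideal.sub_mem _ (mem_ordV.1 hr i) h2 using 1
      rw [prod4]
      linear_combination -h4)
    f ((hc _ _ _).2 fun i => by
      have := sub_lin_mem (f.const i)
      have e : ∀ j, coeff (Finsupp.single j 1) (f.toFun i) = if i = j then 1 else 0 := fun j =>
        (congrFun (congrFun hf i) j).trans (Matrix.one_apply ..)
      simpa [e, one_toFun] using this)
  refine ⟨![g 0 * J 0 * (g 0)⁻¹, J 0, g 1 * J 1 * (g 1)⁻¹, J 1, g 2 * J 2 * (g 2)⁻¹, J 2,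
    g 3 * J 3 * (g 3)⁻¹, J 3], fun a => ?_, ?_⟩
  · have h1 : ∀ b, g b * J b * (g b)⁻¹ * (g b * J b * (g b)⁻¹) = 1 := fun b => by
      rw [conj_mul, hJ, mul_one, mul_inv_cancel]
    fin_cases a
    exacts [h1 0, hJ 0, h1 1, hJ 1, h1 2, hJ 2, h1 3, hJ 3]
  · rw [hg]
    show _ = g 0 * J 0 * (g 0)⁻¹ * J 0 * (g 1 * J 1 * (g 1)⁻¹) * J 1 * (g 2 * J 2 * (g 2)⁻¹) * J 2 *
      (g 3 * J 3 * (g 3)⁻¹) * J 3
    simp only [prod4, cm, mul_assoc]

end Pool.Agent.Variants.MP_9aaefc_al.EightInvolutions
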