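import Pool.Agent.Lib.MP_9aaefc_al.Inv

/-!
In the group of formal maps of complex `n`-space (zero constant terms, invertible Jacobian matrix
at the origin, formal composition) every reversible element has a reverser of finite order.
-/

set_option autoImplicit false

namespace Pool.Agent.Variants.MP_9aaefc_al.FiniteOrderReverser

open MvPowerSeries Pool.Agent.Lib.MP_9aaefc_al

variable {n : ℕ}

/-- The Jacobian matrix at the origin: entry `(i, j)` is the coefficient of `x j` in `f i`. -/
noncomputable def jac (f : Fin n → MvPowerSeries (Fin n) ℂ) : Matrix (Fin n) (Fin n) ℂ :=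
  Matrix.of fun i j => coeff (Finsupp.single j 1) (f i)

/-- Formal maps: `n` power series in `n` variables with zero constant terms and invertible linear
part. -/
@[ext]
structure FormalMap (n : ℕ) where
  toFun : Fin n → MvPowerSeries (Fin n) ℂ
  const : ∀ i, constantCoeff (toFun i) = 0
  det_ne : (jac toFun).det ≠ 0

theorem FormalMap.hasSubst (f : FormalMap n) : HasSubst f.toFun :=
  hasSubst_of_constantCoeff_zero f.const

theorem jac_subst {f g : Fin n → MvPowerSeries (Fin n) ℂ} (hf : ∀ i, constantCoeff (f i) = 0)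
    (hg : ∀ i, constantCoeff (g i) = 0) : jac (fun i => subst g (f i)) = jac f * jac g := by
  ext i l
  exact coeff_single_subst hg (hf i) l

theorem jac_X : jac (fun i : Fin n => (X i : MvPowerSeries (Fin n) ℂ)) = 1 := by
  ext i j
  rw [Matrix.one_apply]
  exact coeff_single_X i j

theorem comp_const (f g : FormalMap n) (i : Fin n) :
    constantCoeff (subst g.toFun (f.toFun i) : MvPowerSeries (Fin n) ℂ) = 0 :=
  constantCoeff_subst_eq_zero g.hasSubst g.const (f.const i)

theorem comp_det (f g : FormalMap n) : (jac fun i => subst g.toFun (f.toFun i)).det ≠ 0 := by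
  rw [jac_subst f.const g.const, Matrix.det_mul]
  exact mul_ne_zero f.det_ne g.det_ne

theorem idMap_det : (jac fun i : Fin n => (X i : MvPowerSeries (Fin n) ℂ)).det ≠ 0 := by
  rw [jac_X, Matrix.det_one]
  exact one_ne_zero

/-- Formal composition `f ∘ g`: substitute `g` into each component of `f`. -/
noncomputable def comp (f g : FormalMap n) : FormalMap n :=
  ⟨fun i => subst g.toFun (f.toFun i), comp_const f g, comp_det f g⟩

/-- The identity map `(x 1, ..., x n)`. -/
noncomputable def idMap (n : ℕ) : FormalMap n :=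
  ⟨fun i => X i, fun i => constantCoeff_X i, idMap_det⟩

theorem det_ne_of_subst {f g : Fin n → MvPowerSeries (Fin n) ℂ}
    (hf : ∀ i, constantCoeff (f i) = 0) (hg : ∀ i, constantCoeff (g i) = 0)
    (h : ∀ i, subst g (f i) = (X i : MvPowerSeries (Fin n) ℂ)) :
    (jac f).det ≠ 0 ∧ (jac g).det ≠ 0 := by
  have h1 := jac_subst hf hg
  rw [funext h, jac_X] at h1
  have h2 := congrArg Matrix.det h1
  rw [Matrix.det_one, Matrix.det_mul] at h2
  exact mul_ne_zero_iff.1 (h2 ▸ one_ne_zero)

theorem exists_inv (f : FormalMap n) : ∃ g : FormalMap n, comp g f = idMap n := by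
  obtain ⟨G, hG, h1, h2⟩ := exists_inverse f.toFun f.const f.det_ne
  exact ⟨⟨G, hG, (det_ne_of_subst f.const hG h1).2⟩, FormalMap.ext (funext h2)⟩

theorem comp_assoc (f g h : FormalMap n) : comp (comp f g) h = comp f (comp g h) :=
  FormalMap.ext (funext fun i => subst_comp_subst_apply g.hasSubst h.hasSubst (f.toFun i))

theorem id_comp (f : FormalMap n) : comp (idMap n) f = f :=
  FormalMap.ext (funext fun i => subst_X f.hasSubst i)

theorem comp_id (f : FormalMap n) : comp f (idMap n) = f :=
  FormalMap.ext (funext fun i => congrFun subst_self (f.toFun i))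

/-- The group of formal maps under composition. -/
noncomputable instance group : Group (FormalMap n) where
  mul := comp
  one := idMap n
  inv f := (exists_inv f).choose
  mul_assoc := comp_assoc
  one_mul := id_comp
  mul_one := comp_id
  inv_mul_cancel f := (exists_inv f).choose_spec

theorem mul_toFun (f g : FormalMap n) (i : Fin n) :
    (f * g).toFun i = subst g.toFun (f.toFun i) := rfl

theorem one_toFun (i : Fin n) : (1 : FormalMap n).toFun i = X i := rfl

theorem pow_toFun (k : FormalMap n) (m : ℕ) : (k ^ m).toFun =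
    (fun M : Fin n → MvPowerSeries (Fin n) ℂ => fun i => subst M (k.toFun i))^[m] fun i => X i := by
  induction m with
  | zero => rw [pow_zero]; rfl
  | succ m ih =>
    rw [pow_succ', Function.iterate_succ_apply', ← ih]
    rfl

/-- Every reversible formal map is reversed by a formal map of finite order. -/
theorem result (n : ℕ) (f h : FormalMap n) (hrev : h * f * h⁻¹ = f⁻¹) :
    ∃ k : FormalMap n, IsOfFinOrder k ∧ k * f * k⁻¹ = f⁻¹ := by
  have hfhf : f * (h * f) = h := by
    rw [mul_inv_eq_iff_eq_mul.1 hrev, mul_inv_cancel_left]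
  obtain ⟨K, hK, ⟨m, hm, hKm⟩, hKr⟩ := main f.toFun (f⁻¹).toFun h.toFun (h⁻¹).toFun
    f.const (f⁻¹).const h.const (h⁻¹).const
    (fun i => congrArg (fun g : FormalMap n => g.toFun i) (mul_inv_cancel f))
    (fun i => congrArg (fun g : FormalMap n => g.toFun i) (inv_mul_cancel f))
    (fun i => congrArg (fun g : FormalMap n => g.toFun i) (mul_inv_cancel h))
    (fun i => congrArg (fun g : FormalMap n => g.toFun i) hfhf)
  obtain ⟨m, rfl⟩ : ∃ m', m = m' + 1 := ⟨m - 1, by omega⟩
  have hdet : (jac K).det ≠ 0 := by
    rw [Function.iterate_succ_apply'] at hKm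
    exact (det_ne_of_subst hK (iterate_eq K hK m).1 (congrFun hKm)).1
  let k : FormalMap n := ⟨K, hK, hdet⟩
  refine ⟨k, isOfFinOrder_iff_pow_eq_one.2 ⟨m + 1, hm, FormalMap.ext ?_⟩, ?_⟩
  · rw [pow_toFun]
    exact hKm
  · have e : f * (k * f) = k := FormalMap.ext (funext hKr)
    rw [mul_inv_eq_iff_eq_mul, eq_inv_mul_iff_mul_eq, e]

end Pool.Agent.Variants.MP_9aaefc_al.FiniteOrderReverser
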